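import Pool.Agent.Helper20.EQ.St1
import Pool.Agent.Helper20.RG.St3

/-!
# Project EQ (owner helper20), module CQ: chords
-/

set_option autoImplicit false

open MeasureTheory Set Filter Topology
open scoped ENNReal RealInnerProductSpace

namespace Pool.Agent.Helper9.EQ

open Pool.Agent.Helper20.RG Pool.Agent.Helper20.EQ
open Pool.Agent.Helper68.LM (Pl BB Bd Av HL ft fm DQ)
open Pool.Agent.Helper68.EP (elt GapP)

theorem tau_mono {φ τ : ℝ → ℝ} (hG : Graph φ τ) {t t' : ℝ} (h : t ≤ t') : τ t ≤ τ t' := by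
  rcases eq_or_lt_of_le h with h1 | h1
  · rw [h1]
  · obtain ⟨h2, h3⟩ := hG.2 t t' h
    have h4 : τ t * (t' - t) ≤ τ t' * (t' - t) := le_trans h2 h3
    exact le_of_mul_le_mul_right h4 (by linarith)

/-- first order error of the graph -/
theorem graph_err {φ τ : ℝ → ℝ} (hG : Graph φ τ) {t t' ε : ℝ} (h1 : |t - t'| ≤ 1)
    (h2 : |τ t - τ t'| ≤ ε) :
    |φ t - φ t' - τ t * (t - t')| ≤ ε ∧ |φ t - φ t' - τ t' * (t - t')| ≤ ε := by
  have hε : 0 ≤ ε := le_trans (abs_nonneg _) h2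
  rw [abs_le] at h1 h2
  rcases le_total t' t with h | h
  · obtain ⟨h3, h4⟩ := hG.2 t' t h
    have h5 : (τ t - τ t') * (t - t') ≤ ε * 1 := by
      apply mul_le_mul h2.2 h1.2 (by linarith) hε
    rw [abs_le, abs_le]
    refine ⟨⟨?_, ?_⟩, ⟨?_, ?_⟩⟩ <;> nlinarith
  · obtain ⟨h3, h4⟩ := hG.2 t t' h
    have h5 : (τ t' - τ t) * (t' - t) ≤ ε * 1 := by
      apply mul_le_mul (by linarith) (by linarith) (by linarith) hε
    rw [abs_le, abs_le]
    refine ⟨⟨?_, ?_⟩, ⟨?_, ?_⟩⟩ <;> nlinarith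

theorem tm_mem {u j : ℕ} (h : j < 2 ^ u) : 0 ≤ tm u j ∧ tm u j ≤ 1 := by
  have h1 : (j : ℝ) + 1 ≤ 2 ^ u := by exact_mod_cast h
  have h2 : (0 : ℝ) < 2 ^ u := by positivity
  unfold tm
  constructor
  · positivity
  · rw [div_le_one h2]
    linarith

/-- slopes in the tripled interval -/
theorem trn_close {φ τ : ℝ → ℝ} (hG : Graph φ τ) {u a : ℕ} (ha : a < 2 ^ u) {t : ℝ}
    (h1 : max 0 (((a : ℝ) - 1) / 2 ^ u) ≤ t) (h2 : t ≤ min 1 (((a : ℝ) + 2) / 2 ^ u)) :
    |τ t - sl τ u a| ≤ trn τ u a := by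
  have h0 : (0 : ℝ) < 2 ^ u := by positivity
  obtain ⟨h3, h4⟩ := tm_mem ha
  have h5 : max 0 (((a : ℝ) - 1) / 2 ^ u) ≤ tm u a := by
    apply max_le h3
    unfold tm
    apply div_le_div_of_nonneg_right _ h0.le
    linarith
  have h6 : tm u a ≤ min 1 (((a : ℝ) + 2) / 2 ^ u) := by
    apply le_min h4
    unfold tm
    apply div_le_div_of_nonneg_right _ h0.le
    linarith
  have h7 := tau_mono hG h1
  have h8 := tau_mono hG h2
  have h9 := tau_mono hG h5
  have h10 := tau_mono hG h6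
  unfold sl trn
  rw [abs_le]
  constructor <;> linarith

/-- the dyadic interval is contained in the tripled one -/
theorem dya_mem {u a : ℕ} (ha : a < 2 ^ u) {t : ℝ} (h : t ∈ Icc ((a : ℝ) / 2 ^ u) (((a : ℝ) + 1) / 2 ^ u)) :
    max 0 (((a : ℝ) - 1) / 2 ^ u) ≤ t ∧ t ≤ min 1 (((a : ℝ) + 2) / 2 ^ u) ∧ t ∈ Icc (0 : ℝ) 1 := by
  have h0 : (0 : ℝ) < 2 ^ u := by positivity
  have h1 : (a : ℝ) + 1 ≤ 2 ^ u := by exact_mod_cast ha
  have h2 : (0 : ℝ) ≤ (a : ℝ) / 2 ^ u := by positivity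
  have h3 : ((a : ℝ) + 1) / 2 ^ u ≤ 1 := by rw [div_le_one h0]; exact h1
  have h4 : ((a : ℝ) - 1) / 2 ^ u ≤ (a : ℝ) / 2 ^ u := by
    apply div_le_div_of_nonneg_right _ h0.le
    linarith
  have h5 : ((a : ℝ) + 1) / 2 ^ u ≤ ((a : ℝ) + 2) / 2 ^ u := by
    apply div_le_div_of_nonneg_right _ h0.le
    linarith
  refine ⟨max_le (h2.trans h.1) (h4.trans h.1), le_min (h.2.trans h3) (h.2.trans h5), ?_, ?_⟩
  · exact h2.trans h.1
  · exact h.2.trans h3

/-- a dyadic interval of slopes near `θ` gives a lower bound for `elt` -/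
theorem elt_ge {τ : ℝ → ℝ} {u a i : ℕ} {θ : ℝ} (ha : a < 2 ^ u)
    (h : ∀ t ∈ Icc ((a : ℝ) / 2 ^ u) (((a : ℝ) + 1) / 2 ^ u), |τ t - θ| ≤ (2 : ℝ) ^ (-(i : ℤ))) :
    1 / (2 : ℝ) ^ u ≤ elt τ θ i := by
  have h0 : (0 : ℝ) < 2 ^ u := by positivity
  have h1 : Icc ((a : ℝ) / 2 ^ u) (((a : ℝ) + 1) / 2 ^ u) ⊆
      {t : ℝ | t ∈ Icc (0 : ℝ) 1 ∧ |τ t - θ| ≤ (2 : ℝ) ^ (-(i : ℤ))} :=
    fun t ht => ⟨(dya_mem ha ht).2.2, h t ht⟩
  have h2 : volume {t : ℝ | t ∈ Icc (0 : ℝ) 1 ∧ |τ t - θ| ≤ (2 : ℝ) ^ (-(i : ℤ))} ≠ ⊤ := by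
    refine ne_top_of_le_ne_top ?_ (measure_mono (t := Icc (0 : ℝ) 1) fun t ht => ht.1)
    simp
  have h3 := ENNReal.toReal_mono h2 (measure_mono h1 (μ := volume))
  rw [Real.volume_Icc, ENNReal.toReal_ofReal (by
    rw [sub_nonneg]
    apply div_le_div_of_nonneg_right _ h0.le
    linarith)] at h3
  unfold elt
  refine le_trans (le_of_eq ?_) h3
  field_simp
  ring

theorem trn_le {τ : ℝ → ℝ} {u a i : ℕ} (h1 : (2 : ℝ) ^ (mm τ u a) * trn τ u a ≤ (2 : ℝ) ^ u)
    (h2 : i ≤ mm τ u a) : trn τ u a ≤ (2 : ℝ) ^ ((u : ℤ) - i) := by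
  have h3 : (0 : ℝ) < 2 ^ (mm τ u a) := by positivity
  have h4 : trn τ u a ≤ (2 : ℝ) ^ ((u : ℤ) - (mm τ u a : ℤ)) := by
    rw [zpow_sub₀ (by norm_num), zpow_natCast, zpow_natCast, le_div_iff₀ h3, mul_comm]
    exact h1
  refine h4.trans (zpow_le_zpow_right₀ (by norm_num) ?_)
  have : (i : ℤ) ≤ mm τ u a := by exact_mod_cast h2
  linarith

theorem hCQ (hMM : StMM) (hCN : StCN) : StCQ := by
  intro φ τ A σ c hG hgap hA hσ u hu
  refine ⟨?_, ?_⟩
  · intro a ha
    obtain ⟨hm1, -, hm3, -⟩ := hMM φ τ A σ hG hgap hA hσ u a hu ha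
    have h0 : (0 : ℝ) < 2 ^ u := by positivity
    refine ⟨?_, ?_, ?_⟩
    · intro i hi
      have ht : trn τ u a ≤ (2 : ℝ) ^ (-(i : ℤ)) := by
        have h1 := trn_le hm3 hi
        refine h1.trans (le_of_eq ?_)
        congr 1
        push_cast
        ring
      refine ⟨elt_ge ha fun t h => (trn_close hG ha (dya_mem ha h).1 (dya_mem ha h).2.1).trans ht, ?_⟩
      have hfin : {j : ℕ | j < 2 ^ u ∧ |sl τ u j - sl τ u a| ≤ (2 : ℝ) ^ (-(i : ℤ))}.Finite :=
        (Set.finite_lt_nat (2 ^ u)).subset fun j hj => hj.1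
      have key : ∃ b : ℕ, b ≠ a ∧ b < 2 ^ u ∧ max 0 (((a : ℝ) - 1) / 2 ^ u) ≤ tm u b ∧
          tm u b ≤ min 1 (((a : ℝ) + 2) / 2 ^ u) := by
        rcases Nat.eq_zero_or_pos a with h1 | h1
        · have h2 : 2 ≤ 2 ^ u := by
            calc 2 = 2 ^ 1 := by norm_num
              _ ≤ 2 ^ u := Nat.pow_le_pow_right (by norm_num) hu
          refine ⟨1, by omega, by omega, ?_, ?_⟩
          · apply max_le (tm_mem (by omega)).1
            rw [h1]
            unfold tm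
            apply div_le_div_of_nonneg_right _ h0.le
            push_cast
            norm_num
          · apply le_min (tm_mem (by omega)).2
            rw [h1]
            unfold tm
            apply div_le_div_of_nonneg_right _ h0.le
            push_cast
            norm_num
        · have hc : ((a - 1 : ℕ) : ℝ) = (a : ℝ) - 1 := by
            rw [Nat.cast_sub h1]
            norm_num
          refine ⟨a - 1, by omega, by omega, ?_, ?_⟩
          · apply max_le (tm_mem (by omega)).1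
            unfold tm
            rw [hc]
            apply div_le_div_of_nonneg_right _ h0.le
            linarith
          · apply le_min (tm_mem (by omega)).2
            unfold tm
            rw [hc]
            apply div_le_div_of_nonneg_right _ h0.le
            linarith
      obtain ⟨b, hb1, hb2, hb3, hb4⟩ := key
      have hsub : ({b, a} : Set ℕ) ⊆ {j : ℕ | j < 2 ^ u ∧ |sl τ u j - sl τ u a| ≤ (2 : ℝ) ^ (-(i : ℤ))} := by
        intro j hj
        rcases hj with hj | hj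
        · rw [hj]
          exact ⟨hb2, (trn_close hG ha hb3 hb4).trans ht⟩
        · rw [Set.mem_singleton_iff] at hj
          rw [hj]
          refine ⟨ha, ?_⟩
          rw [sub_self, abs_zero]
          positivity
      have h5 := Set.ncard_le_ncard hsub hfin
      rw [Set.ncard_pair hb1] at h5
      exact h5
    · intro u' b i hu' hb hab
      obtain ⟨h1, h2⟩ := tm_mem ha
      obtain ⟨h3, h4⟩ := tm_mem hb
      have h5 : |tm u a - tm u' b| ≤ 1 := by
        rw [abs_le]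
        constructor <;> linarith
      have e0 : (ce c φ u a - ce c φ u' b) 0 = tm u a - tm u' b := by
        simp [ce, pt]
      have e1 : (ce c φ u a - ce c φ u' b) 1 = φ (tm u a) - φ (tm u' b) := by
        simp [ce, pt]
      obtain ⟨h6, h7⟩ := graph_err hG h5 hab
      refine ⟨?_, ?_, ?_⟩
      · rw [e0]
        exact h5
      · unfold pr
        rw [e0, e1]
        exact h6
      · unfold pr
        rw [e0, e1]
        exact h7
    · intro u' i θ hu' hi1 hi2 hθ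
      have ht := trn_le hm3 hi2
      have he : 1 / (2 : ℝ) ^ u ≤ elt τ θ (i - u - 1) := by
        apply elt_ge ha
        intro t h
        have h1 := (trn_close hG ha (dya_mem ha h).1 (dya_mem ha h).2.1).trans ht
        have h2 : (2 : ℝ) ^ (-(i : ℤ)) ≤ (2 : ℝ) ^ ((u : ℤ) - i) :=
          zpow_le_zpow_right₀ (by norm_num) (by linarith [Int.natCast_nonneg u])
        have h3 : (2 : ℝ) ^ (-((i - u - 1 : ℕ) : ℤ)) = 2 * (2 : ℝ) ^ ((u : ℤ) - i) := by
          have e : (-((i - u - 1 : ℕ) : ℤ)) = 1 + ((u : ℤ) - i) := by omega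
          rw [e, zpow_add₀ (by norm_num), zpow_one]
        rw [h3]
        have h4 : |τ t - θ| ≤ |τ t - sl τ u a| + |sl τ u a - θ| := abs_sub_le _ _ _
        linarith
      have h5 := (hCN φ τ hG u' (i - u - 1) θ).2.1
      have h6 : (2 : ℝ) ^ (u' - u) = (2 : ℝ) ^ u' * (1 / (2 : ℝ) ^ u) := by
        rw [pow_sub₀ _ (by norm_num) hu', one_div]
      have h7 : (2 : ℝ) ^ u' * (1 / (2 : ℝ) ^ u) ≤ (2 : ℝ) ^ u' * elt τ θ (i - u - 1) :=
        mul_le_mul_of_nonneg_left he (by positivity)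
      rw [h6]
      linarith
  · intro u' i θ θ' hu' hθ
    have h1 := (hCN φ τ hG u (i + 1) θ).1
    have h2 := ((hCN φ τ hG u i θ).2.2.2.2.2.2 θ' hθ).1
    have h3 := (hCN φ τ hG u' i θ').2.1
    have h6 : (2 : ℝ) ^ u' = (2 : ℝ) ^ (u' - u) * (2 : ℝ) ^ u := by
      rw [← pow_add, Nat.sub_add_cancel hu']
    have h7 : (0 : ℝ) < 2 ^ (u' - u) := by positivity
    have h8 : ((nn τ u θ (i + 1) : ℝ) - 1) * (2 : ℝ) ^ (u' - u) ≤
        ((2 : ℝ) ^ u * elt τ θ (i + 1)) * (2 : ℝ) ^ (u' - u) :=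
      mul_le_mul_of_nonneg_right (by linarith) h7.le
    have h9 : (2 : ℝ) ^ u' * elt τ θ (i + 1) ≤ (2 : ℝ) ^ u' * elt τ θ' i :=
      mul_le_mul_of_nonneg_left h2 (by positivity)
    have h10 : ((2 : ℝ) ^ u * elt τ θ (i + 1)) * (2 : ℝ) ^ (u' - u) = (2 : ℝ) ^ u' * elt τ θ (i + 1) := by
      rw [h6]
      ring
    linarith

end Pool.Agent.Helper9.EQ
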